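import Pool.Agent.W5h76.Fuj2.Num

/-!
# Two weighted homogeneous equations
-/

set_option autoImplicit false

namespace Pool.Agent.W5h76.Fuj2

open MvPolynomial Pool.Agent.W5h90.Fuj

variable {ι : Type} [Fintype ι] [DecidableEq ι]

theorem fin2 : ∀ t s s' : Fin 2, s ≠ s' → t = s ∨ t = s' := by decide

omit [DecidableEq ι] in
theorem exists_mono {f : MvPolynomial ι ℂ} {v : ι → ℂ} (h : eval v f ≠ 0) :
    ∃ m ∈ f.support, ∀ x, m x ≠ 0 → v x ≠ 0 := by
  by_contra hcon
  push Not at hcon
  apply h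
  rw [eval_eq']
  refine Finset.sum_eq_zero fun m hm => ?_
  obtain ⟨x, hx, hvx⟩ := hcon m hm
  rw [Finset.prod_eq_zero (Finset.mem_univ x), mul_zero]
  rw [hvx, zero_pow hx]

omit [DecidableEq ι] in
theorem exists_second {f : MvPolynomial ι ℂ} {v : ι → ℂ} (h : eval v f = 0) {m0 : ι →₀ ℕ}
    (hm0 : m0 ∈ f.support) (hv : ∀ x, m0 x ≠ 0 → v x ≠ 0) :
    ∃ m ∈ f.support, m ≠ m0 ∧ ∀ x, m x ≠ 0 → v x ≠ 0 := by
  by_contra hcon
  push Not at hcon
  rw [eval_eq', Finset.sum_eq_single m0] at h
  · refine mul_ne_zero (mem_support_iff.1 hm0) ?_ h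
    rw [Finset.prod_ne_zero_iff]
    intro x _
    by_cases hx : m0 x = 0
    · rw [hx, pow_zero]
      exact one_ne_zero
    · exact pow_ne_zero _ (hv x hx)
  · intro m hm hne
    obtain ⟨x, hx, hvx⟩ := hcon m hm hne
    rw [Finset.prod_eq_zero (Finset.mem_univ x), mul_zero]
    rw [hvx, zero_pow hx]
  · intro h
    exact absurd hm0 h

/-- the weight of an exponent supported at `i` and `j` -/
theorem weight_two {a : ι → ℕ} {m : ι →₀ ℕ} {i j : ι} (hij : i ≠ j)
    (hm : ∀ x, m x ≠ 0 → x = i ∨ x = j) : Finsupp.weight a m = m i * a i + m j * a j := by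
  rw [Finsupp.weight_apply, Finsupp.sum_fintype _ _ (by simp)]
  rw [← Finset.sum_subset (Finset.subset_univ ({i, j} : Finset ι)), Finset.sum_pair hij]
  · simp
  · intro x _ hx
    have h1 : m x = 0 := by
      by_contra hcon
      rcases hm x hcon with rfl | rfl <;> simp at hx
    rw [h1]
    simp

/-- If the point with the only nonzero coordinate `x_i` is not a common zero, and `a i` divides the
degree of `f` but not that of `g`, and `f` vanishes at a point with nonzero coordinates `x_i`, `x_j`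
only, with coprime weights, then the degree of `f` is at least `a i * a j`. -/
theorem degree_bound {a : ι → ℕ} {f g : MvPolynomial ι ℂ} {d d' : ℕ}
    (hf : IsWeightedHomogeneous a f d) (hg : IsWeightedHomogeneous a g d') {i j : ι} (hij : i ≠ j)
    (hcop : Nat.Coprime (a i) (a j)) (ha : 0 < a i) (hi' : ¬ a i ∣ d')
    (hne : ¬ (eval (Pi.single i 1) f = 0 ∧ eval (Pi.single i 1) g = 0))
    {v : ι → ℂ} (hv : ∀ x, v x ≠ 0 ↔ x = i ∨ x = j) (hfv : eval v f = 0) : a i * a j ≤ d := by
  have hsing : ∀ {m : ι →₀ ℕ}, (∀ x, m x ≠ 0 → (Pi.single i 1 : ι → ℂ) x ≠ 0) →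
      ∀ x, m x ≠ 0 → x = i := by
    intro m hm x hx
    by_contra hxi
    exact hm x hx (Pi.single_eq_of_ne hxi _)
  have h1 : eval (Pi.single i 1) g = 0 := by
    by_contra hcon
    obtain ⟨m, hm, hm2⟩ := exists_mono hcon
    have h2 := hsing hm2
    have h3 := hg (mem_support_iff.1 hm)
    rw [weight_two hij (fun x hx => Or.inl (h2 x hx))] at h3
    have h4 : m j = 0 := by
      by_contra hmj
      exact hij (h2 j hmj).symm
    rw [h4, zero_mul, add_zero] at h3
    exact hi' ⟨m i, by rw [← h3]; ring⟩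
  have h2 : eval (Pi.single i 1) f ≠ 0 := fun h => hne ⟨h, h1⟩
  obtain ⟨m0, hm0, hm02⟩ := exists_mono h2
  have h3 := hsing hm02
  have h4 : m0 j = 0 := by
    by_contra hmj
    exact hij (h3 j hmj).symm
  have h5 := hf (mem_support_iff.1 hm0)
  rw [weight_two hij (fun x hx => Or.inl (h3 x hx)), h4, zero_mul, add_zero] at h5
  obtain ⟨m, hm, hmne, hm2⟩ := exists_second hfv hm0 (fun x hx => by
    rw [h3 x hx, hv]
    exact Or.inl rfl)
  have h6 : ∀ x, m x ≠ 0 → x = i ∨ x = j := fun x hx => (hv x).1 (hm2 x hx)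
  have h7 := hf (mem_support_iff.1 hm)
  rw [weight_two hij h6] at h7
  have h8 : m j ≠ 0 := by
    intro hmj
    rw [hmj, zero_mul, add_zero] at h7
    apply hmne
    have h9 : m i = m0 i := Nat.eq_of_mul_eq_mul_right ha (h7.trans h5.symm)
    ext x
    by_cases hxi : x = i
    · rw [hxi, h9]
    · by_cases hxj : x = j
      · rw [hxj, hmj, h4]
      · have e1 : m x = 0 := by
          by_contra hcon
          rcases h6 x hcon with h | h
          · exact hxi h
          · exact hxj h
        have e2 : m0 x = 0 := by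
          by_contra hcon
          exact hxi (h3 x hcon)
        rw [e1, e2]
  have h9 : a i ∣ m j * a j := by
    have h10 : a i ∣ m i * a i + m j * a j := by
      rw [h7, ← h5]
      exact Dvd.intro_left _ rfl
    exact (Nat.dvd_add_right (Dvd.intro_left _ rfl)).1 h10
  have h11 : a i ∣ m j := hcop.dvd_of_dvd_mul_right h9
  have h12 : a i ≤ m j := Nat.le_of_dvd (Nat.pos_of_ne_zero h8) h11
  calc a i * a j ≤ m j * a j := Nat.mul_le_mul_right _ h12
    _ ≤ m i * a i + m j * a j := Nat.le_add_left _ _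
    _ = d := h7

/-- Freeness for two equations. -/
theorem two_equations (n : ℕ) (hcard : Fintype.card ι = n + 3) (a : ι → ℕ) (ha : ∀ i, 0 < a i)
    (d : Fin 2 → ℕ) (hd : ∀ j, 0 < d j) (f : Fin 2 → MvPolynomial ι ℂ)
    (hf : ∀ j, IsWeightedHomogeneous a (f j) (d j))
    (hgcd : ∀ v : ι → ℂ, v ≠ 0 → (∀ j, eval v (f j) = 0) →
      ∀ g : ℕ, (∀ i, v i ≠ 0 → g ∣ a i) → g = 1)
    (e : ℕ) (he : ∑ j, d j + n + 1 ≤ e + ∑ i, a i) :
    ∀ v : ι → ℂ, v ≠ 0 → (∀ j, eval v (f j) = 0) →
      ∃ s : MvPolynomial ι ℂ, IsWeightedHomogeneous a s e ∧ eval v s ≠ 0 := by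
  classical
  intro v hv hfv
  have hR : Reg2 a d := fun g hg => card_le a d hd f hf hgcd g hg
  have hg1 := hgcd v hv hfv
  suffices h : ∃ w : ι →₀ ℕ, (∀ x, w x ≠ 0 → v x ≠ 0) ∧ Finsupp.weight a w = e by
    obtain ⟨w, hw1, hw2⟩ := h
    refine ⟨monomial w 1, ?_, ?_⟩
    · exact isWeightedHomogeneous_monomial a w 1 hw2
    · rw [eval_monomial, one_mul, Finsupp.prod]
      rw [Finset.prod_ne_zero_iff]
      intro i hi
      exact pow_ne_zero _ (hw1 i (Finsupp.mem_support_iff.1 hi))
  by_cases hone : ∃ i, v i ≠ 0 ∧ a i = 1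
  · obtain ⟨i, hi, hai⟩ := hone
    refine ⟨Finsupp.single i e, fun x hx => ?_, ?_⟩
    · by_cases hxi : x = i
      · rw [hxi]; exact hi
      · exact absurd (Finsupp.single_eq_of_ne hxi) hx
    · rw [Finsupp.weight_single, hai, smul_eq_mul, mul_one]
  push Not at hone
  have h2 : ∀ i, v i ≠ 0 → 2 ≤ a i := by
    intro i hi
    have h3 := ha i
    have h4 := hone i hi
    omega
  by_cases hc : ∃ i j, i ≠ j ∧ v i ≠ 0 ∧ v j ≠ 0 ∧ ∃ s, a i ∣ d s ∧ a j ∣ d s
  · obtain ⟨i, j, hij, hi, hj, s, his, hjs⟩ := hc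
    by_cases hcop : Nat.Coprime (a i) (a j)
    · obtain ⟨w, hw1, hw2⟩ := case_coprime hR n hcard ha hd hij hcop his hjs e he
      refine ⟨w, fun x hx => ?_, hw2⟩
      rcases hw1 x hx with rfl | rfl
      · exact hi
      · exact hj
    · have hG : 2 ≤ Nat.gcd (a i) (a j) := by
        have h3 : 0 < Nat.gcd (a i) (a j) := Nat.gcd_pos_of_pos_left _ (ha i)
        have h4 : Nat.gcd (a i) (a j) ≠ 1 := hcop
        omega
      obtain ⟨k, hk, hGk⟩ : ∃ k, v k ≠ 0 ∧ ¬ Nat.gcd (a i) (a j) ∣ a k := by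
        by_contra hcon
        push Not at hcon
        exact hcop (hg1 _ hcon)
      have hik : i ≠ k := by
        rintro rfl
        exact hGk (Nat.gcd_dvd_left _ _)
      have hjk : j ≠ k := by
        rintro rfl
        exact hGk (Nat.gcd_dvd_right _ _)
      obtain ⟨w, hw1, hw2⟩ := case_common hR n hcard ha hd hij hik hjk hG his hjs
        (hR.exists_dvd k (h2 k hk)) e he
      refine ⟨w, fun x hx => ?_, hw2⟩
      rcases hw1 x hx with rfl | rfl | rfl
      · exact hk
      · exact hi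
      · exact hj
  · push Not at hc
    obtain ⟨i, hi⟩ : ∃ i, v i ≠ 0 := by
      by_contra hcon
      push Not at hcon
      exact hv (funext hcon)
    obtain ⟨j, hij, hj⟩ : ∃ j, i ≠ j ∧ v j ≠ 0 := by
      by_contra hcon
      push Not at hcon
      have h3 := hg1 (a i) (fun k hk => by
        by_cases hik : i = k
        · rw [hik]
        · exact absurd (hcon k hik) hk)
      have := h2 i hi
      omega
    obtain ⟨s, hs⟩ := hR.exists_dvd i (h2 i hi)
    obtain ⟨s', hs'⟩ := hR.exists_dvd j (h2 j hj)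
    have hjs : ¬ a j ∣ d s := hc i j hij hi hj s hs
    have his' : ¬ a i ∣ d s' := fun h => hc i j hij hi hj s' h hs'
    have hss : s ≠ s' := by
      rintro rfl
      exact hjs hs'
    have hS : ∀ x, v x ≠ 0 ↔ x = i ∨ x = j := by
      intro x
      constructor
      · intro hx
        by_contra hcon
        push Not at hcon
        obtain ⟨t, ht⟩ := hR.exists_dvd x (h2 x hx)
        have h3 : t = s ∨ t = s' := by
          exact fin2 t s s' hss
        rcases h3 with rfl | rfl
        · exact hc i x (Ne.symm hcon.1) hi hx _ hs ht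
        · exact hc j x (Ne.symm hcon.2) hj hx _ hs' ht
      · rintro (rfl | rfl)
        · exact hi
        · exact hj
    have hcop : Nat.Coprime (a i) (a j) := hg1 _ (fun x hx => by
      rcases (hS x).1 hx with rfl | rfl
      · exact Nat.gcd_dvd_left _ _
      · exact Nat.gcd_dvd_right _ _)
    have hpt : ∀ x, 2 ≤ a x → ∀ t t' : Fin 2, t ≠ t' →
        ¬ (eval (Pi.single x 1) (f t) = 0 ∧ eval (Pi.single x 1) (f t') = 0) := by
      rintro x hx t t' htt ⟨h3, h4⟩
      have h5 := hgcd (Pi.single x 1) (by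
        intro h
        have := congrFun h x
        rw [Pi.single_eq_same] at this
        exact one_ne_zero this) (by
        intro u
        have h6 : u = t ∨ u = t' := by
          exact fin2 u t t' htt
        rcases h6 with rfl | rfl
        · exact h3
        · exact h4) (a x) (by
        intro y hy
        by_cases hyx : y = x
        · rw [hyx]
        · exact absurd (Pi.single_eq_of_ne hyx _) hy)
      omega
    have hb : a i * a j ≤ d s := degree_bound (hf s) (hf s') hij hcop (ha i) his'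
      (hpt i (h2 i hi) s s' hss) hS (hfv s)
    have hb' : a j * a i ≤ d s' := degree_bound (hf s') (hf s) (Ne.symm hij) hcop.symm
      (ha j) hjs (hpt j (h2 j hj) s' s (Ne.symm hss)) (fun x => by rw [hS x, or_comm]) (hfv s')
    rw [mul_comm] at hb'
    obtain ⟨w, hw1, hw2⟩ := case_exceptional hR n hcard ha hd hij hcop hss hs his' hs' hjs hb hb' e he
    refine ⟨w, fun x hx => ?_, hw2⟩
    exact (hS x).2 (hw1 x hx)

end Pool.Agent.W5h76.Fuj2
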