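import Pool.Agent.W5h90.Fuj.Reg

/-!
# Two degrees: the arithmetic

`a i` are weights and `d 0`, `d 1` two degrees with `#{i : g ∣ a i} ≤ #{j : g ∣ d j}` for all
`g ≥ 2`. In particular no `g ≥ 2` divides three of the weights, and if `g` divides two weights,
then it divides both degrees.
-/

set_option autoImplicit false

namespace Pool.Agent.W5h76.Fuj2

open Pool.Agent.W5h90.Fuj

variable {ι : Type} [Fintype ι] [DecidableEq ι] {a : ι → ℕ} {d : Fin 2 → ℕ}

/-- the number of weights divisible by `g ≥ 2` is at most the number of degrees divisible by `g` -/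
def Reg2 (a : ι → ℕ) (d : Fin 2 → ℕ) : Prop :=
  ∀ g, 2 ≤ g → (Finset.univ.filter fun i => g ∣ a i).card ≤ (Finset.univ.filter fun j => g ∣ d j).card

omit [DecidableEq ι] in
theorem Reg2.le_two (h : Reg2 a d) {g : ℕ} (hg : 2 ≤ g) :
    (Finset.univ.filter fun i => g ∣ a i).card ≤ 2 :=
  (h g hg).trans ((Finset.card_le_univ _).trans (by simp))

theorem Reg2.not_three (h : Reg2 a d) {g : ℕ} (hg : 2 ≤ g) {i j k : ι} (hij : i ≠ j) (hik : i ≠ k)
    (hjk : j ≠ k) (h1 : g ∣ a i) (h2 : g ∣ a j) (h3 : g ∣ a k) : False := by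
  have h4 := h.le_two hg
  have h5 : ({i, j, k} : Finset ι) ⊆ Finset.univ.filter fun i => g ∣ a i := by
    intro x hx
    simp only [Finset.mem_insert, Finset.mem_singleton] at hx
    simp only [Finset.mem_filter, Finset.mem_univ, true_and]
    rcases hx with rfl | rfl | rfl <;> assumption
  have h6 := Finset.card_le_card h5
  rw [Finset.card_eq_three.2 ⟨i, j, k, hij, hik, hjk, rfl⟩] at h6
  omega

theorem Reg2.dvd_of_two (h : Reg2 a d) {g : ℕ} (hg : 2 ≤ g) {i j : ι} (hij : i ≠ j)
    (h1 : g ∣ a i) (h2 : g ∣ a j) (s : Fin 2) : g ∣ d s := by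
  have h4 := h g hg
  have h5 : ({i, j} : Finset ι) ⊆ Finset.univ.filter fun i => g ∣ a i := by
    intro x hx
    simp only [Finset.mem_insert, Finset.mem_singleton] at hx
    simp only [Finset.mem_filter, Finset.mem_univ, true_and]
    rcases hx with rfl | rfl <;> assumption
  have h6 := (Finset.card_le_card h5).trans h4
  rw [Finset.card_pair hij] at h6
  have h7 : (Finset.univ.filter fun j => g ∣ d j) = Finset.univ := by
    apply Finset.eq_univ_of_card
    apply le_antisymm (Finset.card_le_univ _)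
    simpa using h6
  have h8 : s ∈ (Finset.univ.filter fun j => g ∣ d j) := by rw [h7]; exact Finset.mem_univ s
  exact (Finset.mem_filter.1 h8).2

omit [DecidableEq ι] in
theorem Reg2.exists_dvd (h : Reg2 a d) (i : ι) (hi : 2 ≤ a i) : ∃ s, a i ∣ d s := by
  have h4 := h (a i) hi
  have h5 : 0 < (Finset.univ.filter fun j => a i ∣ a j).card :=
    Finset.card_pos.2 ⟨i, by simp⟩
  obtain ⟨s, hs⟩ := Finset.card_pos.1 (h5.trans_le h4)
  exact ⟨s, (Finset.mem_filter.1 hs).2⟩

/-- if every prime power dividing `g` divides two different weights then `g` divides both degrees -/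
theorem Reg2.dvd_of_pow (h : Reg2 a d) {g : ℕ}
    (hp : ∀ p t : ℕ, p.Prime → 1 ≤ t → p ^ t ∣ g → ∃ i j, i ≠ j ∧ p ^ t ∣ a i ∧ p ^ t ∣ a j)
    (s : Fin 2) : g ∣ d s := by
  rw [Nat.dvd_iff_prime_pow_dvd_dvd]
  intro p t hpp hpt
  rcases Nat.eq_zero_or_pos t with rfl | ht
  · simp
  obtain ⟨i, j, hij, hi, hj⟩ := hp p t hpp ht hpt
  have h2 : 2 ≤ p ^ t := by
    have h3 : p ^ 1 ≤ p ^ t := Nat.pow_le_pow_right hpp.pos ht
    have := hpp.two_le
    rw [pow_one] at h3
    omega
  exact h.dvd_of_two h2 hij hi hj s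

theorem card_degrees (g : ℕ) (d : Fin 2 → ℕ) (h : ∀ s, g ∣ d s) :
    (Finset.univ.filter fun j => g ∣ d j).card = 2 := by
  rw [Finset.filter_true_of_mem (fun s _ => h s)]
  simp

theorem card_degrees_pos {g : ℕ} {d : Fin 2 → ℕ} {s : Fin 2} (h : g ∣ d s) :
    1 ≤ (Finset.univ.filter fun j => g ∣ d j).card :=
  Finset.card_pos.2 ⟨s, by simp [h]⟩

/-- The conductor bound from a list of weights. -/
theorem exists_weight_of_list (n : ℕ) (hcard : Fintype.card ι = n + 3) (ha : ∀ i, 0 < a i)
    (hd : ∀ j, 0 < d j) (l : List ι) (hl : l ≠ []) (hnd : l.Nodup) (hg1 : gl a l = 1)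
    (hcount : ∀ g, 2 ≤ g → (lc a l).countP (fun x => g ∣ x)
      + ((l.toFinset)ᶜ.filter fun i => g ∣ a i).card ≤ (Finset.univ.filter fun j => g ∣ d j).card)
    (e : ℕ) (he : ∑ j, d j + n + 1 ≤ e + ∑ i, a i) :
    ∃ w : ι →₀ ℕ, (∀ i, w i ≠ 0 → i ∈ l) ∧ Finsupp.weight a w = e := by
  classical
  have hlen : l.toFinset.card = l.length := List.toFinset_card_of_nodup hnd
  have key : (lc a l ++ ((l.toFinset)ᶜ.toList.map a)).sum ≤ (Finset.univ.toList.map d).sum + n := by
    refine sum_le_of_count ?_ ?_ ?_ ?_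
    · intro x hx
      rcases List.mem_append.1 hx with hx | hx
      · exact lc_pos l (fun i _ => ha i) x hx
      · obtain ⟨i, _, rfl⟩ := List.mem_map.1 hx
        exact ha i
    · intro x hx
      obtain ⟨i, _, rfl⟩ := List.mem_map.1 hx
      exact hd i
    · rw [List.length_append, length_lc, List.length_map, List.length_map,
        Finset.length_toList, Finset.length_toList, Finset.card_univ,
        Finset.card_compl, hlen, Fintype.card_fin]
      have h1 : 0 < l.length := List.length_pos_of_ne_nil hl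
      have h2 := Finset.card_le_univ l.toFinset
      omega
    · intro g hg
      have h4 : ((l.toFinset)ᶜ.toList.map a).countP (fun x => g ∣ x)
          = (l.toFinset)ᶜ.toList.countP fun i => g ∣ a i := by
        rw [List.countP_map]
        rfl
      have h5 : (Finset.univ.toList.map d).countP (fun x => g ∣ x)
          = Finset.univ.toList.countP fun j => g ∣ d j := by
        rw [List.countP_map]
        rfl
      rw [List.countP_append, h4, h5, countP_toList, countP_toList]
      exact hcount g hg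
  rw [List.sum_append, Finset.sum_map_toList, Finset.sum_map_toList] at key
  have key' : (lc a l).sum + ∑ i ∈ (l.toFinset)ᶜ, a i ≤ ∑ j, d j + n := key
  have h1 : (l.map a).sum = ∑ i ∈ l.toFinset, a i := by
    rw [List.sum_toFinset _ hnd]
  have h2 : ∑ i ∈ l.toFinset, a i + ∑ i ∈ (l.toFinset)ᶜ, a i = ∑ i, a i :=
    Finset.sum_add_sum_compl l.toFinset a
  obtain ⟨w, hw1, hw2⟩ := brauer a l hl (fun i _ => ha i) (e : ℤ) (by rw [hg1]; simp) (by
    rw [hg1, h1]
    have h3 : (lc a l).sum + 1 ≤ e + ∑ i ∈ l.toFinset, a i := by omega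
    have h4 : (((lc a l).sum + 1 : ℕ) : ℤ) ≤ ((e + ∑ i ∈ l.toFinset, a i : ℕ) : ℤ) :=
      Int.ofNat_le.2 h3
    rw [Nat.cast_add, Nat.cast_add] at h4
    exact h4)
  exact ⟨w, hw1, by exact_mod_cast hw2⟩

theorem two_le_pow {p t : ℕ} (hp : p.Prime) (ht : 1 ≤ t) : 2 ≤ p ^ t := by
  have h3 : p ^ 1 ≤ p ^ t := Nat.pow_le_pow_right hp.pos ht
  have := hp.two_le
  rw [pow_one] at h3
  omega

theorem exists_prime_dvd_of_two_le {g : ℕ} (hg : 2 ≤ g) : ∃ p, p.Prime ∧ p ∣ g :=
  ⟨g.minFac, Nat.minFac_prime (by omega), Nat.minFac_dvd g⟩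

/-- two coprime weights which divide the same degree -/
theorem case_coprime (h : Reg2 a d) (n : ℕ) (hcard : Fintype.card ι = n + 3) (ha : ∀ i, 0 < a i)
    (hd : ∀ j, 0 < d j) {i j : ι} (hij : i ≠ j) (hcop : Nat.Coprime (a i) (a j)) {s : Fin 2}
    (hi : a i ∣ d s) (hj : a j ∣ d s) (e : ℕ) (he : ∑ j, d j + n + 1 ≤ e + ∑ i, a i) :
    ∃ w : ι →₀ ℕ, (∀ x, w x ≠ 0 → x = i ∨ x = j) ∧ Finsupp.weight a w = e := by
  classical
  have hgl : gl a [i, j] = 1 := by
    simp only [gl, Nat.gcd_zero_right]
    exact hcop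
  have hlc : lc a [i, j] = [Nat.lcm (a i) (a j)] := by
    simp only [lc, gl, Nat.gcd_zero_right]
  obtain ⟨w, hw1, hw2⟩ := exists_weight_of_list (a := a) (d := d) n hcard ha hd [i, j] (by simp)
    (by simp [hij]) hgl (by
      intro g hg
      rw [hlc]
      have hL : Nat.lcm (a i) (a j) ∣ d s := Nat.lcm_dvd hi hj
      set O := ((([i, j] : List ι).toFinset)ᶜ).filter fun x => g ∣ a x with hO
      have hOm : ∀ x ∈ O, x ≠ i ∧ x ≠ j ∧ g ∣ a x := by
        intro x hx
        rw [hO, Finset.mem_filter, Finset.mem_compl] at hx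
        simp only [List.toFinset_cons, List.toFinset_nil, Finset.mem_insert,
          Finset.notMem_empty, or_false, not_or] at hx
        exact ⟨hx.1.1, hx.1.2, hx.2⟩
      have hOle : O.card ≤ (Finset.univ.filter fun j => g ∣ d j).card := by
        refine le_trans (Finset.card_le_card ?_) (h g hg)
        intro x hx
        simp [(hOm x hx).2.2]
      rw [List.countP_cons, List.countP_nil, zero_add]
      by_cases hgl : g ∣ Nat.lcm (a i) (a j)
      · simp only [hgl, decide_true, if_true]
        rcases O.eq_empty_or_nonempty with hE | ⟨x, hx⟩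
        · rw [hE, Finset.card_empty, add_zero]
          exact card_degrees_pos (hgl.trans hL)
        · obtain ⟨hxi, hxj, hgx⟩ := hOm x hx
          have h1 : O.card ≤ 1 := by
            rw [Finset.card_le_one]
            intro y hy z hz
            by_contra hyz
            obtain ⟨p, hp, hpg⟩ := exists_prime_dvd_of_two_le hg
            obtain ⟨hyi, hyj, hgy⟩ := hOm y hy
            obtain ⟨hzi, hzj, hgz⟩ := hOm z hz
            rcases prime_pow_dvd_lcm (t := 1) hp (ha i) (ha j) (by
              rw [pow_one]; exact hpg.trans hgl) with h2 | h2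
            · rw [pow_one] at h2
              exact h.not_three hp.two_le (Ne.symm hyi) (Ne.symm hzi) hyz h2 (hpg.trans hgy)
                (hpg.trans hgz)
            · rw [pow_one] at h2
              exact h.not_three hp.two_le (Ne.symm hyj) (Ne.symm hzj) hyz h2 (hpg.trans hgy)
                (hpg.trans hgz)
          rw [card_degrees g d (h.dvd_of_pow (fun p t hp ht hpt => by
            rcases prime_pow_dvd_lcm hp (ha i) (ha j) (hpt.trans hgl) with h2 | h2
            · exact ⟨i, x, Ne.symm hxi, h2, hpt.trans hgx⟩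
            · exact ⟨j, x, Ne.symm hxj, h2, hpt.trans hgx⟩))]
          omega
      · simp only [hgl, decide_false, Bool.false_eq_true, if_false, zero_add]
        exact hOle) e he
  exact ⟨w, fun x hx => by simpa using hw1 x hx, hw2⟩

/-- two weights with a common factor which divide the same degree, and any third weight -/
theorem case_common (h : Reg2 a d) (n : ℕ) (hcard : Fintype.card ι = n + 3) (ha : ∀ i, 0 < a i)
    (hd : ∀ j, 0 < d j) {i j k : ι} (hij : i ≠ j) (hik : i ≠ k) (hjk : j ≠ k)
    (hG : 2 ≤ Nat.gcd (a i) (a j)) {s : Fin 2}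
    (hi : a i ∣ d s) (hj : a j ∣ d s) (hk : ∃ s, a k ∣ d s)
    (e : ℕ) (he : ∑ j, d j + n + 1 ≤ e + ∑ i, a i) :
    ∃ w : ι →₀ ℕ, (∀ x, w x ≠ 0 → x = k ∨ x = i ∨ x = j) ∧ Finsupp.weight a w = e := by
  classical
  set G := Nat.gcd (a i) (a j) with hGdef
  have hGi : G ∣ a i := Nat.gcd_dvd_left _ _
  have hGj : G ∣ a j := Nat.gcd_dvd_right _ _
  have hcop : Nat.gcd (a k) G = 1 := by
    by_contra hne
    obtain ⟨p, hp, hpg⟩ := Nat.exists_prime_and_dvd hne
    exact h.not_three hp.two_le hij hik hjk
      ((hpg.trans (Nat.gcd_dvd_right _ _)).trans hGi)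
      ((hpg.trans (Nat.gcd_dvd_right _ _)).trans hGj) (hpg.trans (Nat.gcd_dvd_left _ _))
  have hgl : gl a [k, i, j] = 1 := by
    simp only [gl, Nat.gcd_zero_right]
    exact hcop
  have hlc : lc a [k, i, j] = [Nat.lcm (a k) G, Nat.lcm (a i) (a j)] := by
    simp only [lc, gl, Nat.gcd_zero_right]
    rfl
  have hGp : 0 < G := by omega
  obtain ⟨w, hw1, hw2⟩ := exists_weight_of_list (a := a) (d := d) n hcard ha hd [k, i, j] (by simp)
    (by simp [hij, Ne.symm hik, Ne.symm hjk]) hgl (by
      intro g hg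
      rw [hlc]
      have hL : Nat.lcm (a i) (a j) ∣ d s := Nat.lcm_dvd hi hj
      obtain ⟨s', hk'⟩ := hk
      have hL' : Nat.lcm (a k) G ∣ d s' :=
        Nat.lcm_dvd hk' (h.dvd_of_two hG hij hGi hGj s')
      set O := ((([k, i, j] : List ι).toFinset)ᶜ).filter fun x => g ∣ a x with hO
      have hOm : ∀ x ∈ O, x ≠ k ∧ x ≠ i ∧ x ≠ j ∧ g ∣ a x := by
        intro x hx
        rw [hO, Finset.mem_filter, Finset.mem_compl] at hx
        simp only [List.toFinset_cons, List.toFinset_nil, Finset.mem_insert,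
          Finset.notMem_empty, or_false, not_or] at hx
        exact ⟨hx.1.1, hx.1.2.1, hx.1.2.2, hx.2⟩
      have hOle : O.card ≤ (Finset.univ.filter fun j => g ∣ d j).card := by
        refine le_trans (Finset.card_le_card ?_) (h g hg)
        intro x hx
        simp [(hOm x hx).2.2.2]
      -- a prime power dividing `lcm (a k) G`, resp. `lcm (a i) (a j)`
      have hA : ∀ p t : ℕ, p.Prime → p ^ t ∣ Nat.lcm (a k) G →
          p ^ t ∣ a k ∨ (p ^ t ∣ a i ∧ p ^ t ∣ a j) := by
        intro p t hp hpt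
        rcases prime_pow_dvd_lcm hp (ha k) hGp hpt with h2 | h2
        · exact Or.inl h2
        · exact Or.inr ⟨h2.trans hGi, h2.trans hGj⟩
      have hB : ∀ p t : ℕ, p.Prime → p ^ t ∣ Nat.lcm (a i) (a j) → p ^ t ∣ a i ∨ p ^ t ∣ a j :=
        fun p t hp hpt => prime_pow_dvd_lcm hp (ha i) (ha j) hpt
      rw [List.countP_cons, List.countP_cons, List.countP_nil, zero_add]
      rcases O.eq_empty_or_nonempty with hE | ⟨x, hx⟩
      · rw [hE, Finset.card_empty, add_zero]
        by_cases h1 : g ∣ Nat.lcm (a k) G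
        · by_cases h2 : g ∣ Nat.lcm (a i) (a j)
          · simp only [h1, h2, decide_true, if_true]
            rw [card_degrees g d (h.dvd_of_pow (fun p t hp ht hpt => by
              rcases hA p t hp (hpt.trans h1) with h3 | h3
              · rcases hB p t hp (hpt.trans h2) with h4 | h4
                · exact ⟨k, i, Ne.symm hik, h3, h4⟩
                · exact ⟨k, j, Ne.symm hjk, h3, h4⟩
              · exact ⟨i, j, hij, h3.1, h3.2⟩))]
          · simp only [h1, h2, decide_true, decide_false, if_true, Bool.false_eq_true, if_false,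
              zero_add]
            exact card_degrees_pos (h1.trans hL')
        · by_cases h2 : g ∣ Nat.lcm (a i) (a j)
          · simp only [h1, h2, decide_true, decide_false, if_true, Bool.false_eq_true, if_false,
              add_zero]
            exact card_degrees_pos (h2.trans hL)
          · simp only [h1, h2, decide_false, Bool.false_eq_true, if_false, zero_add]
            exact Nat.zero_le _
      · obtain ⟨hxk, hxi, hxj, hgx⟩ := hOm x hx
        -- if `g` divides one of the two least common multiples then `O = {x}` and `g ∣ d`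
        have hone : (g ∣ Nat.lcm (a k) G ∨ g ∣ Nat.lcm (a i) (a j)) → O.card ≤ 1 := by
          intro hor
          rw [Finset.card_le_one]
          intro y hy z hz
          by_contra hyz
          obtain ⟨p, hp, hpg⟩ := exists_prime_dvd_of_two_le hg
          obtain ⟨hyk, hyi, hyj, hgy⟩ := hOm y hy
          obtain ⟨hzk, hzi, hzj, hgz⟩ := hOm z hz
          have hy' := hpg.trans hgy
          have hz' := hpg.trans hgz
          have h5 : p ∣ a k ∨ p ∣ a i ∨ p ∣ a j := by
            rcases hor with h4 | h4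
            · rcases hA p 1 hp (by rw [pow_one]; exact hpg.trans h4) with h6 | h6
              · rw [pow_one] at h6; exact Or.inl h6
              · rw [pow_one] at h6; exact Or.inr (Or.inl h6.1)
            · rcases hB p 1 hp (by rw [pow_one]; exact hpg.trans h4) with h6 | h6
              · rw [pow_one] at h6; exact Or.inr (Or.inl h6)
              · rw [pow_one] at h6; exact Or.inr (Or.inr h6)
          rcases h5 with h5 | h5 | h5
          · exact h.not_three hp.two_le (Ne.symm hyk) (Ne.symm hzk) hyz h5 hy' hz'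
          · exact h.not_three hp.two_le (Ne.symm hyi) (Ne.symm hzi) hyz h5 hy' hz'
          · exact h.not_three hp.two_le (Ne.symm hyj) (Ne.symm hzj) hyz h5 hy' hz'
        have hA' : ∀ p t : ℕ, p.Prime → 1 ≤ t → p ^ t ∣ g → g ∣ Nat.lcm (a k) G →
            p ^ t ∣ a k := by
          intro p t hp ht hpt h1
          rcases hA p t hp (hpt.trans h1) with h3 | h3
          · exact h3
          · exact (h.not_three (two_le_pow hp ht) hij (Ne.symm hxi) (Ne.symm hxj) h3.1 h3.2
              (hpt.trans hgx)).elim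
        have hnot : ¬ (g ∣ Nat.lcm (a k) G ∧ g ∣ Nat.lcm (a i) (a j)) := by
          rintro ⟨h1, h2⟩
          obtain ⟨p, hp, hpg⟩ := exists_prime_dvd_of_two_le hg
          have h3 := hA' p 1 hp le_rfl (by rw [pow_one]; exact hpg) h1
          rw [pow_one] at h3
          rcases hB p 1 hp (by rw [pow_one]; exact hpg.trans h2) with h4 | h4
          · rw [pow_one] at h4
            exact h.not_three hp.two_le hik (Ne.symm hxi) (Ne.symm hxk) h4 h3 (hpg.trans hgx)
          · rw [pow_one] at h4
            exact h.not_three hp.two_le hjk (Ne.symm hxj) (Ne.symm hxk) h4 h3 (hpg.trans hgx)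
        by_cases h1 : g ∣ Nat.lcm (a k) G
        · have h2 : ¬ g ∣ Nat.lcm (a i) (a j) := fun h2 => hnot ⟨h1, h2⟩
          simp only [h1, h2, decide_true, decide_false, if_true, Bool.false_eq_true, if_false,
            zero_add]
          rw [card_degrees g d (h.dvd_of_pow (fun p t hp ht hpt =>
            ⟨k, x, Ne.symm hxk, hA' p t hp ht hpt h1, hpt.trans hgx⟩))]
          have := hone (Or.inl h1)
          omega
        · by_cases h2 : g ∣ Nat.lcm (a i) (a j)
          · simp only [h1, h2, decide_true, decide_false, if_true, Bool.false_eq_true, if_false,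
              add_zero]
            rw [card_degrees g d (h.dvd_of_pow (fun p t hp ht hpt => by
              rcases hB p t hp (hpt.trans h2) with h4 | h4
              · exact ⟨i, x, Ne.symm hxi, h4, hpt.trans hgx⟩
              · exact ⟨j, x, Ne.symm hxj, h4, hpt.trans hgx⟩))]
            have := hone (Or.inr h2)
            omega
          · simp only [h1, h2, decide_false, Bool.false_eq_true, if_false, zero_add]
            exact hOle) e he
  exact ⟨w, fun x hx => by simpa using hw1 x hx, hw2⟩

/-- the largest divisor of `m` not divisible by the prime power `p ^ t`, `1 ≤ t`, `p ^ t ∣ m` -/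
theorem exists_cut {p t m : ℕ} (hp : p.Prime) (ht : 1 ≤ t) (hm : 0 < m) (hpm : p ^ t ∣ m) :
    ∃ D, 0 < D ∧ 2 * D ≤ m ∧ ∀ g, g ∣ m → ¬ p ^ t ∣ g → g ∣ D := by
  refine ⟨p ^ (t - 1) * (ordCompl[p] m), ?_, ?_, ?_⟩
  · exact Nat.mul_pos (pow_pos hp.pos _) (Nat.ordCompl_pos p hm.ne')
  · have h1 : ordProj[p] m * ordCompl[p] m = m := Nat.ordProj_mul_ordCompl_eq_self m p
    have h2 : t ≤ m.factorization p := (hp.pow_dvd_iff_le_factorization hm.ne').1 hpm
    have h3 : 2 * p ^ (t - 1) ≤ ordProj[p] m := by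
      calc 2 * p ^ (t - 1) ≤ p * p ^ (t - 1) := Nat.mul_le_mul_right _ hp.two_le
        _ = p ^ t := by rw [← pow_succ']; congr 1; omega
        _ ≤ p ^ (m.factorization p) := Nat.pow_le_pow_right hp.pos h2
    calc 2 * (p ^ (t - 1) * ordCompl[p] m) = (2 * p ^ (t - 1)) * ordCompl[p] m := by ring
      _ ≤ ordProj[p] m * ordCompl[p] m := Nat.mul_le_mul_right _ h3
      _ = m := h1
  · intro g hgm hg
    have hg0 : g ≠ 0 := (Nat.pos_of_dvd_of_pos hgm hm).ne'
    have h1 : g = ordProj[p] g * ordCompl[p] g := (Nat.ordProj_mul_ordCompl_eq_self g p).symm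
    rw [h1]
    refine mul_dvd_mul (pow_dvd_pow _ ?_) (Nat.ordCompl_dvd_ordCompl_of_dvd hgm p)
    rw [hp.pow_dvd_iff_le_factorization hg0] at hg
    omega

theorem exists_pow_of_not_dvd {x y : ℕ} (h : ¬ x ∣ y) :
    ∃ p t : ℕ, p.Prime ∧ 1 ≤ t ∧ p ^ t ∣ x ∧ ¬ p ^ t ∣ y := by
  rw [Nat.dvd_iff_prime_pow_dvd_dvd] at h
  push Not at h
  obtain ⟨p, t, hp, ht, ht2⟩ := h
  refine ⟨p, t, hp, ?_, ht, ht2⟩
  rcases Nat.eq_zero_or_pos t with rfl | ht0
  · exact absurd (by simp) ht2
  · exact ht0

theorem card_degrees_le (g : ℕ) (d : Fin 2 → ℕ) {s s' : Fin 2} (hs : s ≠ s') :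
    (Finset.univ.filter fun j => g ∣ d j).card = [d s, d s'].countP (fun x => g ∣ x) := by
  have h1 : (Finset.univ : Finset (Fin 2)) = {s, s'} := by
    symm
    apply Finset.eq_univ_of_card
    rw [Finset.card_pair hs]
    simp
  rw [h1, Finset.filter_insert, Finset.filter_singleton, List.countP_cons, List.countP_cons,
    List.countP_nil]
  by_cases h2 : g ∣ d s
  · by_cases h3 : g ∣ d s'
    · simp [h2, h3, hs]
    · simp [h2, h3]
  · by_cases h3 : g ∣ d s'
    · simp [h2, h3]
    · simp [h2, h3]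

/-- two coprime weights which divide different degrees, both large -/
theorem case_exceptional (h : Reg2 a d) (n : ℕ) (hcard : Fintype.card ι = n + 3)
    (ha : ∀ i, 0 < a i) (hd : ∀ j, 0 < d j) {i j : ι} (hij : i ≠ j)
    (hcop : Nat.Coprime (a i) (a j)) {s s' : Fin 2} (hs : s ≠ s')
    (hi : a i ∣ d s) (hi' : ¬ a i ∣ d s') (hj : a j ∣ d s') (hj' : ¬ a j ∣ d s)
    (hb : a i * a j ≤ d s) (hb' : a i * a j ≤ d s')
    (e : ℕ) (he : ∑ j, d j + n + 1 ≤ e + ∑ i, a i) :
    ∃ w : ι →₀ ℕ, (∀ x, w x ≠ 0 → x = i ∨ x = j) ∧ Finsupp.weight a w = e := by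
  classical
  obtain ⟨p, t, hp, ht, hpi, hps'⟩ := exists_pow_of_not_dvd hi'
  obtain ⟨p', t', hp', ht', hpj, hps⟩ := exists_pow_of_not_dvd hj'
  obtain ⟨D, hD0, hD2, hD⟩ := exists_cut hp ht (hd s) (hpi.trans hi)
  obtain ⟨D', hD0', hD2', hD'⟩ := exists_cut hp' ht' (hd s') (hpj.trans hj)
  set O : Finset ι := ({i, j} : Finset ι)ᶜ with hO
  have hOm : ∀ x, x ∈ O ↔ x ≠ i ∧ x ≠ j := by
    intro x
    rw [hO, Finset.mem_compl]
    simp
  have key : (1 :: O.toList.map a).sum ≤ [D, D'].sum + n := by
    refine sum_le_of_count ?_ ?_ ?_ ?_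
    · intro x hx
      rcases List.mem_cons.1 hx with rfl | hx
      · exact one_pos
      · obtain ⟨i, _, rfl⟩ := List.mem_map.1 hx
        exact ha i
    · intro x hx
      simp only [List.mem_cons, List.not_mem_nil, or_false] at hx
      rcases hx with rfl | rfl <;> assumption
    · rw [List.length_cons, List.length_map, Finset.length_toList, hO, Finset.card_compl,
        Finset.card_pair hij]
      simp only [List.length_cons, List.length_nil]
      omega
    · intro g hg
      have h4 : (O.toList.map a).countP (fun x => g ∣ x) = O.toList.countP fun i => g ∣ a i := by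
        rw [List.countP_map]
        rfl
      have h1 : ¬ g ∣ 1 := by
        rw [Nat.dvd_one]
        omega
      rw [List.countP_cons, h4, countP_toList]
      simp only [h1, decide_false, Bool.false_eq_true, if_false, add_zero]
      rcases (O.filter fun x => g ∣ a x).eq_empty_or_nonempty with hE | ⟨x, hx⟩
      · rw [hE, Finset.card_empty]
        exact Nat.zero_le _
      · rw [Finset.mem_filter, hOm] at hx
        obtain ⟨⟨hxi, hxj⟩, hgx⟩ := hx
        have hn : ¬ p ^ t ∣ g := fun h5 =>
          hps' (h.dvd_of_two (two_le_pow hp ht) (Ne.symm hxi) hpi (h5.trans hgx) s')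
        have hn' : ¬ p' ^ t' ∣ g := fun h5 =>
          hps (h.dvd_of_two (two_le_pow hp' ht') (Ne.symm hxj) hpj (h5.trans hgx) s)
        refine le_trans (Finset.card_le_card (Finset.filter_subset_filter _
          (Finset.subset_univ O))) ?_
        refine (h g hg).trans ?_
        rw [card_degrees_le g d hs]
        simp only [List.countP_cons, List.countP_nil]
        have e1 : g ∣ d s → g ∣ D := fun h5 => hD g h5 hn
        have e2 : g ∣ d s' → g ∣ D' := fun h5 => hD' g h5 hn'
        by_cases h5 : g ∣ d s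
        · by_cases h6 : g ∣ d s'
          · simp [h5, h6, e1 h5, e2 h6]
          · simp [h5, h6, e1 h5]
        · by_cases h6 : g ∣ d s'
          · simp [h5, h6, e2 h6]
          · simp [h5, h6]
  rw [List.sum_cons, Finset.sum_map_toList] at key
  simp only [List.sum_cons, List.sum_nil, add_zero] at key
  have key' : 1 + ∑ x ∈ O, a x ≤ D + D' + n := key
  have h2 : ∑ x ∈ ({i, j} : Finset ι), a x + ∑ x ∈ O, a x = ∑ x, a x :=
    Finset.sum_add_sum_compl _ a
  rw [Finset.sum_pair hij] at h2
  have h3 : ∑ x, d x = d s + d s' := by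
    have h1 : (Finset.univ : Finset (Fin 2)) = {s, s'} := by
      symm
      apply Finset.eq_univ_of_card
      rw [Finset.card_pair hs]
      simp
    rw [h1, Finset.sum_pair hs]
  have hgl : gl a [i, j] = 1 := by
    simp only [gl, Nat.gcd_zero_right]
    exact hcop
  have hlc : lc a [i, j] = [a i * a j] := by
    simp only [lc, gl, Nat.gcd_zero_right]
    rw [hcop.lcm_eq_mul]
  have h5 : a i * a j + 1 ≤ e + (a i + a j) := by omega
  obtain ⟨w, hw1, hw2⟩ := brauer a [i, j] (by simp) (fun i _ => ha i) (e : ℤ)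
    (by rw [hgl]; simp) (by
    rw [hgl, hlc]
    simp only [List.sum_cons, List.sum_nil, add_zero, List.map_cons, List.map_nil]
    have h6 : ((a i * a j + 1 : ℕ) : ℤ) ≤ ((e + (a i + a j) : ℕ) : ℤ) := Int.ofNat_le.2 h5
    rw [Nat.cast_add, Nat.cast_add] at h6
    exact h6)
  exact ⟨w, fun x hx => by simpa using hw1 x hx, by exact_mod_cast hw2⟩

end Pool.Agent.W5h76.Fuj2
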